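import Pool.Agent.L5helper26.PN.Main

/-!
# MP_b15c9e_ag: Dynamical Mordell-Lang for endomorphisms of the plane which preserve a pencil of lines
and are strictly critically finite on the lines over one cycle of the pencil

Let `F = (F_0, F_1)` be a pair of binary forms of degree `d ≥ 2` without common zero and let `R` be a
family of forms of degree `d` in the variables `x_0, x_1` and `y_j`, such that

  `Φ : (x, y) ↦ (F(x), R(x, y))`

is an endomorphism of projective space (`fibered F R`, in dimension two there is one variable `y`, and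
the condition is that `y^d` occurs in `R`). These are the endomorphisms which preserve the pencil of the
hyperplanes `x_0 : x_1 = const`, and `F` is the induced rational function on the base `ℙ¹` of the
pencil. The centre `x_0 = x_1 = 0` is totally invariant.

**Theorem (the plane).** Let `F` have algebraic coefficients; the coefficients of `R` are complex numbers.
Let `z ∈ ℙ¹` be an algebraic periodic point of `F` whose cycle contains no critical point of `F`. Suppose
that every critical point of `Φ` on the lines over the points of this cycle, except the centre, has a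
finite orbit which ends in a cycle without critical points. Then `Φ` has the Dynamical Mordell-Lang
property, for all complex points and all closed subsets of the plane.

Outside of the lines over the cycle there is no condition on `Φ`: the critical points of `F` may have
infinite orbits or may be periodic, and the other fibres are arbitrary. For example let
`F = (x_0^d + x_1 A, x_1 B)` with `B(1, 0) ≠ 0` (every rational function of degree `d` has a fixed point
which is not critical, and takes this form if the fixed point is moved to `(1 : 0)`), let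
`ζ^d = 1`, `ζ ≠ 1`, `c^(d-1) = ζ - 1` and let `Q` be an arbitrary form of degree `d - 1` over `ℂ`. Then

  `(x_0^d + x_1 A, x_1 B, y^d + c x_0^d + x_1 Q)`

has the Dynamical Mordell-Lang property (third part of the theorem); on the invariant line `x_1 = 0` this
is the map `y ↦ y^d + c`, whose critical point is mapped to `c` and to the fixed point `ζ c`. In degree
two: `(x_0² + a x_0 x_1 + b x_1², x_1 (e x_0 + g x_1), y² - 2 x_0² + x_1 (h x_0 + k x_1 + l y))`.

**Theorem (all dimensions, second part).** Let there be closed sets `D_0 ⊇ … ` (not necessarily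
decreasing) `D_0, …, D_k` with `Φ(D_i) ⊆ D_i` such that `D_0` contains the hyperplanes over the cycle of
`z`, such that for `i < k` an iterate of `Φ` maps the critical points in `D_i` into `D_{i+1}`, and such
that `D_k` is contained in the centre. Then the return set of every point of `ℙ^N`, whose image in the
base of the pencil has an infinite orbit, to every closed set is a finite union of arithmetic
progressions.

The proof. The backward orbit of `z` is infinite. If the image `x` in the base of the point has an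
infinite orbit then, by the finiteness of the solutions of the unit equation (`x` algebraic) or by the
choice of an embedding (`x` transcendental), there are large primes `p` modulo which the orbit of `x`
meets the backward orbit of `z`. From some time on the orbit of the point lies modulo `p` in the
hyperplanes over the cycle of `z`. By the Nullstellensatz the cycles in the reductions of these
hyperplanes which contain a critical point are contained in the centre, for large `p`. So the orbit is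
étale modulo `p` from some time on, and `p`-adic interpolation applies. If the orbit of `x` is finite
then in the plane the orbit of the point lies on finitely many lines.
-/

set_option autoImplicit false

open MvPolynomial

namespace Pool.Agent.Results.MP_b15c9e_ag.CriticallyFiniteFibre

/-- The self-map of the affine cone given by polynomials. -/
noncomputable def coneMap {ι : Type} (f : ι → MvPolynomial ι ℂ) (x : ι → ℂ) : ι → ℂ :=
  fun i => eval x (f i)

/-- The polynomials `f i` are forms of degree `d` without common zero, so they define an endomorphism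
of projective space. -/
def IsEndo {ι : Type} (d : ℕ) (f : ι → MvPolynomial ι ℂ) : Prop :=
  (∀ i, (f i).IsHomogeneous d) ∧ ∀ x : ι → ℂ, (∀ i, eval x (f i) = 0) → x = 0

/-- The return set of the point `[a]` to the closed set of the common zeros of the members of `S`. -/
def returnSet {ι : Type} (f : ι → MvPolynomial ι ℂ) (S : Set (MvPolynomial ι ℂ))
    (a : ι → ℂ) : Set ℕ :=
  {n | ∀ g ∈ S, eval ((coneMap f)^[n] a) g = 0}

/-- A finite union of arithmetic progressions `{a + k n}`, where `k = 0` is allowed. -/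
def FiniteUnionAP (A : Set ℕ) : Prop :=
  ∃ T : Finset (ℕ × ℕ), A = {n : ℕ | ∃ q ∈ T, ∃ m : ℕ, n = q.1 * m + q.2}

/-- The Dynamical Mordell-Lang property, for all closed sets and all points of projective space. -/
def DML {ι : Type} (f : ι → MvPolynomial ι ℂ) : Prop :=
  ∀ S : Set (MvPolynomial ι ℂ), (∀ g ∈ S, ∃ e : ℕ, g.IsHomogeneous e) →
    ∀ a : ι → ℂ, a ≠ 0 → FiniteUnionAP (returnSet f S a)

/-- The critical locus: the zeros of the Jacobian determinant. -/
def critical {ι : Type} [Fintype ι] [DecidableEq ι] (f : ι → MvPolynomial ι ℂ) : Set (ι → ℂ) :=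
  {x | (Matrix.of fun i j => eval x (pderiv j (f i))).det = 0}

/-- The closed subset of projective space given by a set of forms (as a set of nonzero vectors). -/
def zeroSet {ι : Type} (S : Set (MvPolynomial ι ℂ)) : Set (ι → ℂ) :=
  {x | x ≠ 0 ∧ ∀ g ∈ S, eval x g = 0}

/-- The vectors differ by a nonzero factor, so they define the same point of projective space. -/
def SamePoint {ι : Type} (x y : ι → ℂ) : Prop := ∃ c : ℂ, c ≠ 0 ∧ x = c • y

/-- The coordinates `x_0, x_1` of a vector. -/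
def base {κ : Type} (v : Fin 2 ⊕ κ → ℂ) : Fin 2 → ℂ := fun i => v (Sum.inl i)

/-- The system `(x, y) ↦ (F(x), R(x, y))`. -/
noncomputable def fibered {κ : Type} (F : Fin 2 → MvPolynomial (Fin 2) ℂ)
    (R : κ → MvPolynomial (Fin 2 ⊕ κ) ℂ) : Fin 2 ⊕ κ → MvPolynomial (Fin 2 ⊕ κ) ℂ :=
  Sum.elim (fun i => rename Sum.inl (F i)) R

/-- The point `z` is periodic and its cycle contains no critical point. -/
def NoncriticalPeriodic (F : Fin 2 → MvPolynomial (Fin 2) ℂ) (z : Fin 2 → ℂ) : Prop :=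
  z ≠ 0 ∧ (∃ m : ℕ, 0 < m ∧ SamePoint ((coneMap F)^[m] z) z) ∧
    ∀ n : ℕ, (coneMap F)^[n] z ∉ critical F

/-- The orbit of the point is finite and its cycle contains no critical point. -/
def StrictlyPreperiodic {ι : Type} [Fintype ι] [DecidableEq ι] (f : ι → MvPolynomial ι ℂ)
    (v : ι → ℂ) : Prop :=
  ∃ n m : ℕ, n < m ∧ SamePoint ((coneMap f)^[n] v) ((coneMap f)^[m] v) ∧
    ∀ l : ℕ, n ≤ l → (coneMap f)^[l] v ∉ critical f

/-- The critical points of `(x, y) ↦ (F(x), R(x, y))` on the lines over the orbit of `z`, except the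
centre, are strictly preperiodic. -/
def FibreSCF (F : Fin 2 → MvPolynomial (Fin 2) ℂ) (R : Unit → MvPolynomial (Fin 2 ⊕ Unit) ℂ)
    (z : Fin 2 → ℂ) : Prop :=
  ∀ (n : ℕ) (v : Fin 2 ⊕ Unit → ℂ), SamePoint (base v) ((coneMap F)^[n] z) →
    v ∈ critical (fibered F R) → StrictlyPreperiodic (fibered F R) v

/-- There are invariant closed sets `D_0, …, D_k`, the first of which contains the hyperplanes over the
orbit of `z`, the last of which is contained in the centre, such that for `i < k` an iterate maps the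
critical points in `D_i` into `D_{i+1}`. -/
def FibreChain {κ : Type} [Fintype κ] [DecidableEq κ] (F : Fin 2 → MvPolynomial (Fin 2) ℂ)
    (R : κ → MvPolynomial (Fin 2 ⊕ κ) ℂ) (z : Fin 2 → ℂ) : Prop :=
  ∃ (k : ℕ) (D : ℕ → Set (MvPolynomial (Fin 2 ⊕ κ) ℂ)),
    (∀ i, ∀ g ∈ D i, ∃ e : ℕ, g.IsHomogeneous e) ∧
    (∀ (n : ℕ) (c : ℂ) (v : Fin 2 ⊕ κ → ℂ), v ≠ 0 → base v = c • (coneMap F)^[n] z →
      v ∈ zeroSet (D 0)) ∧
    (∀ v ∈ zeroSet (D k), base v = 0) ∧
    (∀ i ≤ k, ∀ v ∈ zeroSet (D i), coneMap (fibered F R) v ∈ zeroSet (D i)) ∧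
    ∀ i < k, ∃ m : ℕ, ∀ v ∈ zeroSet (D i), v ∈ critical (fibered F R) →
      (coneMap (fibered F R))^[m] v ∈ zeroSet (D (i + 1))

open Pool.Agent.L5helper26.DM Pool.Agent.L5helper26.PN in
theorem plane {d : ℕ} (hd : 2 ≤ d) (F : Fin 2 → MvPolynomial (Fin 2) ℂ) (hF : IsEndo d F)
    (halg : ∀ i κ, IsAlgebraic ℚ ((F i).coeff κ)) (R : Unit → MvPolynomial (Fin 2 ⊕ Unit) ℂ)
    (hR : IsEndo d (fibered F R)) (z : Fin 2 → ℂ) (hz : ∀ i, IsAlgebraic ℚ (z i))
    (hz1 : NoncriticalPeriodic F z) (hz2 : FibreSCF F R z) : DML (fibered F R) := by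
  intro S hS a _
  obtain ⟨hz0, ⟨m, hm, hper⟩, hcrit⟩ := hz1
  have hR0 : eval cen (R ()) ≠ 0 := by
    intro h
    have h1 := hR.2 cen (by
      rintro (i | i)
      · change eval cen (rename Sum.inl (F i)) = 0
        rw [eval_rename]
        have h2 := congrFun (pt_zero F (by omega) hF.1) i
        exact h2
      · exact h)
    have h2 := congrFun h1 (Sum.inr ())
    change (1 : ℂ) = 0 at h2
    exact one_ne_zero h2
  refine plane_full F hF.1 halg hF.2 R (fun j => hR.1 (Sum.inr j)) hR0 hd z ⟨hz0, hz⟩ m hm hper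
    hcrit (fun n v hv hc hj => ?_) S hS a
  exact hz2 n v (par_cross hv (alg_iter F halg hF.2 ⟨hz0, hz⟩ n).1 hc) hj

open Pool.Agent.L5helper26.DM Pool.Agent.L5helper26.PN in
theorem higher {d : ℕ} (hd : 2 ≤ d) (F : Fin 2 → MvPolynomial (Fin 2) ℂ) (hF : IsEndo d F)
    (halg : ∀ i κ, IsAlgebraic ℚ ((F i).coeff κ)) (κ : Type) [Fintype κ] [DecidableEq κ]
    (R : κ → MvPolynomial (Fin 2 ⊕ κ) ℂ)
    (hR : IsEndo d (fibered F R)) (z : Fin 2 → ℂ) (hz : ∀ i, IsAlgebraic ℚ (z i))
    (hz1 : NoncriticalPeriodic F z) (hz2 : FibreChain F R z)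
    (S : Set (MvPolynomial (Fin 2 ⊕ κ) ℂ))
    (a : Fin 2 ⊕ κ → ℂ) (ha : base a ≠ 0)
    (hpre : ∀ n m : ℕ, n ≠ m → ¬ SamePoint ((coneMap F)^[n] (base a)) ((coneMap F)^[m] (base a))) :
    FiniteUnionAP (returnSet (fibered F R) S a) := by
  classical
  obtain ⟨hz0, ⟨m, hm, hper⟩, hcrit⟩ := hz1
  obtain ⟨k, D, -, hD0, hDk, hinv, hcr⟩ := hz2
  let D' : ℕ → Set (MvPolynomial (Fin 2 ⊕ κ) ℂ) := fun i => {h | ∃ g ∈ D i, ∃ j, h = X j * g}
  have hzD : ∀ i (v : Fin 2 ⊕ κ → ℂ), (∀ h ∈ D' i, eval v h = 0) ↔ (v = 0 ∨ v ∈ zeroSet (D i)) := by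
    intro i v
    constructor
    · intro h
      by_cases hv : v = 0
      · exact Or.inl hv
      · right
        refine ⟨hv, fun g hg => ?_⟩
        obtain ⟨j, hj⟩ := Function.ne_iff.1 hv
        have h1 := h _ ⟨g, hg, j, rfl⟩
        rw [map_mul, eval_X] at h1
        exact (mul_eq_zero.1 h1).resolve_left hj
    · rintro (rfl | h) _ ⟨g, hg, j, rfl⟩
      · rw [map_mul, eval_X]
        simp
      · rw [map_mul, h.2 g hg, mul_zero]
  have hit0 : ∀ n, (coneMap (fibered F R))^[n] 0 = 0 := by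
    intro n
    induction n with
    | zero => rfl
    | succ n ih =>
      rw [Function.iterate_succ_apply', ih]
      exact pt_zero (fibered F R) (by omega) hR.1
  have hpre' : ¬ ∃ n m : ℕ, n ≠ m ∧ Par ((Pool.Agent.H936R2.pt F)^[n] (a ∘ Sum.inl))
      ((Pool.Agent.H936R2.pt F)^[m] (a ∘ Sum.inl)) := by
    rintro ⟨n, m, hne, h⟩
    exact hpre n m hne h
  have g1 : ∀ (n : ℕ) (v : Fin 2 ⊕ κ → ℂ),
      cross (v ∘ Sum.inl) ((Pool.Agent.H936R2.pt F)^[n] z) = 0 → ∀ g ∈ D' 0, eval v g = 0 := by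
    intro n v h
    rw [hzD]
    by_cases hv : v = 0
    · exact Or.inl hv
    right
    by_cases hb : v ∘ Sum.inl = 0
    · refine hD0 n 0 v hv ?_
      rw [zero_smul]
      exact hb
    · obtain ⟨c, -, hc⟩ := par_cross hb (alg_iter F halg hF.2 ⟨hz0, hz⟩ n).1 h
      exact hD0 n c v hv hc
  have g2 : ∀ i, i ≤ k → ∀ v : Fin 2 ⊕ κ → ℂ, (∀ g ∈ D' i, eval v g = 0) →
      ∀ g ∈ D' i, eval (Pool.Agent.H936R2.pt (Pool.Agent.L5helper26.PN.fibered F R) v) g = 0 := by
    intro i hi v hv
    rw [hzD] at hv ⊢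
    rcases hv with rfl | hv
    · left
      exact hit0 1
    · exact Or.inr (hinv i hi v hv)
  have g3 : ∀ i < k, ∃ l : ℕ, ∀ v : Fin 2 ⊕ κ → ℂ, (∀ g ∈ D' i, eval v g = 0) →
      (Pool.Agent.H936R2.jac (Pool.Agent.L5helper26.PN.fibered F R) v).det = 0 →
      ∀ g ∈ D' (i + 1),
        eval ((Pool.Agent.H936R2.pt (Pool.Agent.L5helper26.PN.fibered F R))^[l] v) g = 0 := by
    intro i hi
    obtain ⟨l, hl⟩ := hcr i hi
    refine ⟨l, fun v hv hj => ?_⟩
    rw [hzD] at hv ⊢
    rcases hv with rfl | hv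
    · left
      exact hit0 l
    · exact Or.inr (hl v hv hj)
  have g4 : ∀ v : Fin 2 ⊕ κ → ℂ, (∀ g ∈ D' k, eval v g = 0) → ∀ j : Fin 2,
      v (Sum.inl j) = 0 := by
    intro v hv j
    rw [hzD] at hv
    rcases hv with rfl | hv
    · rfl
    · exact congrFun (hDk v hv) j
  obtain ⟨p, hp, τ, -, hE⟩ := etale_fib F hF.1 halg hF.2 hd R z ⟨hz0, hz⟩ m hm hper hcrit k D'
    g1 g2 g3 g4 a ha hpre' ∅
  exact param_dml (Param.refl _ _) hE S

/-- The pair `(x_0^d + x_1 A, x_1 B)`. -/
noncomputable def baseMap (d : ℕ) (A B : MvPolynomial (Fin 2) ℂ) : Fin 2 → MvPolynomial (Fin 2) ℂ :=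
  ![X 0 ^ d + X 1 * A, X 1 * B]

/-- The form `y^d + c x_0^d + x_1 Q`. -/
noncomputable def fibreMap (d : ℕ) (c : ℂ) (Q : MvPolynomial (Fin 2 ⊕ Unit) ℂ) :
    Unit → MvPolynomial (Fin 2 ⊕ Unit) ℂ :=
  fun _ => X (Sum.inr ()) ^ d + C c * X (Sum.inl 0) ^ d + X (Sum.inl 1) * Q

open Pool.Agent.L5helper26.DM Pool.Agent.L5helper26.PN in
theorem example_endo {d : ℕ} (hd : 2 ≤ d) (F : Fin 2 → MvPolynomial (Fin 2) ℂ) (hF : IsEndo d F)
    (c : ℂ) (Q : MvPolynomial (Fin 2 ⊕ Unit) ℂ) (hQ : Q.IsHomogeneous (d - 1)) :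
    IsEndo d (fibered F (fibreMap d c Q)) := by
  obtain ⟨e, rfl⟩ : ∃ e, d = e + 1 := ⟨d - 1, by omega⟩
  rw [Nat.add_sub_cancel] at hQ
  constructor
  · rintro (i | i)
    · exact (hF.1 i).rename_isHomogeneous
    · change (X (Sum.inr ()) ^ (e + 1) + C c * X (Sum.inl 0) ^ (e + 1) +
        X (Sum.inl 1) * Q : MvPolynomial (Fin 2 ⊕ Unit) ℂ).IsHomogeneous (e + 1)
      have h1 := (isHomogeneous_X ℂ (Sum.inr () : Fin 2 ⊕ Unit)).pow (e + 1)
      have h2 := (isHomogeneous_C (Fin 2 ⊕ Unit) c).mul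
        ((isHomogeneous_X ℂ (Sum.inl 0 : Fin 2 ⊕ Unit)).pow (e + 1))
      have h3 := (isHomogeneous_X ℂ (Sum.inl 1 : Fin 2 ⊕ Unit)).mul hQ
      rw [one_mul] at h1
      rw [one_mul, zero_add] at h2
      rw [Nat.add_comm 1 e] at h3
      exact (h1.add h2).add h3
  · intro v hv
    have h1 : (fun i => v (Sum.inl i)) = 0 := hF.2 _ fun i => by
      have h := hv (Sum.inl i)
      change eval v (rename Sum.inl (F i)) = 0 at h
      rw [eval_rename] at h
      exact h
    have h2 := hv (Sum.inr ())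
    change eval v (X (Sum.inr ()) ^ (e + 1) + C c * X (Sum.inl 0) ^ (e + 1) +
        X (Sum.inl 1) * Q) = 0 at h2
    have h3 : v (Sum.inl 0) = 0 := congrFun h1 0
    have h4 : v (Sum.inl 1) = 0 := congrFun h1 1
    rw [map_add, map_add, map_mul, map_mul, map_pow, map_pow, eval_X, eval_X, eval_X, eval_C, h3,
      h4, zero_pow (by omega), mul_zero, zero_mul, add_zero, add_zero] at h2
    have h5 : v (Sum.inr ()) = 0 := (pow_eq_zero_iff (by omega)).1 h2
    funext i
    rcases i with i | i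
    · exact congrFun h1 i
    · exact h5

open Pool.Agent.L5helper26.DM Pool.Agent.L5helper26.PN Pool.Agent.H936R2 in
theorem example_dml {d : ℕ} (hd : 2 ≤ d) (A B : MvPolynomial (Fin 2) ℂ)
    (hF : IsEndo d (baseMap d A B)) (hA : ∀ κ, IsAlgebraic ℚ (A.coeff κ))
    (hB : ∀ κ, IsAlgebraic ℚ (B.coeff κ)) (hB1 : eval ![1, 0] B ≠ 0) (ζ c : ℂ) (hζ : ζ ^ d = 1)
    (hζ1 : ζ ≠ 1) (hc : c ^ (d - 1) = ζ - 1) (Q : MvPolynomial (Fin 2 ⊕ Unit) ℂ)
    (hQ : Q.IsHomogeneous (d - 1)) :
    IsEndo d (fibered (baseMap d A B) (fibreMap d c Q)) ∧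
      DML (fibered (baseMap d A B) (fibreMap d c Q)) := by
  classical
  have hendo := example_endo hd _ hF c Q hQ
  refine ⟨hendo, ?_⟩
  have hd0 : (d : ℂ) ≠ 0 := Nat.cast_ne_zero.2 (by omega)
  have hd1 : d ≠ 0 := by omega
  have hc0 : c ≠ 0 := by
    rintro rfl
    rw [zero_pow (by omega)] at hc
    exact hζ1 (by linear_combination -hc)
  have hζ0 : ζ ≠ 0 := by
    rintro rfl
    rw [zero_pow hd1] at hζ
    exact zero_ne_one hζ
  have hcd : c ^ d + c = ζ * c := by
    obtain ⟨e, rfl⟩ : ∃ e, d = e + 1 := ⟨d - 1, by omega⟩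
    rw [Nat.add_sub_cancel] at hc
    rw [pow_succ, hc]
    ring
  have hXalg : ∀ (P : MvPolynomial (Fin 2) ℂ), (∀ κ, IsAlgebraic ℚ (P.coeff κ)) → ∀ κ,
      IsAlgebraic ℚ ((X 1 * P).coeff κ) := by
    intro P hP κ
    rw [coeff_X_mul']
    split_ifs
    · exact hP _
    · exact isAlgebraic_zero
  have halg : ∀ i κ, IsAlgebraic ℚ ((baseMap d A B i).coeff κ) := by
    intro i κ
    fin_cases i
    · change IsAlgebraic ℚ ((X 0 ^ d + X 1 * A).coeff κ)
      rw [coeff_add, coeff_X_pow]
      refine IsAlgebraic.add ?_ (hXalg A hA κ)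
      split_ifs
      · exact isAlgebraic_one
      · exact isAlgebraic_zero
    · exact hXalg B hB κ
  -- the fixed point of the base
  have hfix : coneMap (baseMap d A B) ![1, 0] = ![1, 0] := by
    funext i
    fin_cases i
    · change eval ![1, 0] (X 0 ^ d + X 1 * A) = 1
      simp
    · change eval ![1, 0] (X 1 * B) = 0
      simp
  have hfixn : ∀ n, (coneMap (baseMap d A B))^[n] ![1, 0] = ![1, 0] := by
    intro n
    induction n with
    | zero => rfl
    | succ n ih => rw [Function.iterate_succ_apply', ih, hfix]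
  have hjac : (jac (baseMap d A B) ![1, 0]).det ≠ 0 := by
    rw [Matrix.det_fin_two]
    have e00 : jac (baseMap d A B) ![1, 0] 0 0 = d := by
      change eval ![1, 0] (pderiv 0 (X 0 ^ d + X 1 * A)) = _
      rw [map_add, Derivation.leibniz, Derivation.leibniz_pow, pderiv_X_self,
        pderiv_X_of_ne (by decide)]
      simp
    have e10 : jac (baseMap d A B) ![1, 0] 1 0 = 0 := by
      change eval ![1, 0] (pderiv 0 (X 1 * B)) = _
      rw [Derivation.leibniz, pderiv_X_of_ne (by decide)]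
      simp
    have e11 : jac (baseMap d A B) ![1, 0] 1 1 = eval ![1, 0] B := by
      change eval ![1, 0] (pderiv 1 (X 1 * B)) = _
      rw [Derivation.leibniz, pderiv_X_self]
      simp
    rw [e00, e10, e11, mul_zero, sub_zero]
    exact mul_ne_zero hd0 hB1
  have hz10 : (![1, 0] : Fin 2 → ℂ) ≠ 0 := alg_infinity.1
  refine plane hd _ hF halg _ hendo ![1, 0] alg_infinity.2
    ⟨hz10, ⟨1, one_pos, 1, one_ne_zero, ?_⟩, fun n => ?_⟩ fun n v hv hj => ?_
  · rw [Function.iterate_one, hfix, one_smul]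
  · rw [hfixn]
    exact hjac
  -- the critical points of the fibre
  set f := fibered (baseMap d A B) (fibreMap d c Q) with hf
  rw [hfixn] at hv
  obtain ⟨t, ht, hvt⟩ := hv
  have hv0 : v (Sum.inl 0) = t := by
    have := congrFun hvt 0
    change v (Sum.inl 0) = t * 1 at this
    rw [this, mul_one]
  have hv1 : v (Sum.inl 1) = 0 := by
    have := congrFun hvt 1
    change v (Sum.inl 1) = t * 0 at this
    rw [this, mul_zero]
  have hdet : ∀ w : Fin 2 ⊕ Unit → ℂ, (∃ s : ℂ, s ≠ 0 ∧ base w = s • ![1, 0]) →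
      ((jac f w).det = 0 ↔ w (Sum.inr ()) = 0) := by
    rintro w ⟨s, hs, hw⟩
    have h1 : (jac f w).det = (jac (baseMap d A B) (w ∘ Sum.inl)).det *
        eval w (pderiv (Sum.inr ()) (fibreMap d c Q ())) := jac_fibered _ _ w
    have h2 : (jac (baseMap d A B) (w ∘ Sum.inl)).det ≠ 0 := jac_par hF.1 ⟨s, hs, hw⟩ hjac
    have hw1 : w (Sum.inl 1) = 0 := by
      have := congrFun hw 1
      change w (Sum.inl 1) = s * 0 at this
      rw [this, mul_zero]
    have h3 : eval w (pderiv (Sum.inr ()) (fibreMap d c Q ())) = d * w (Sum.inr ()) ^ (d - 1) := by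
      change eval w (pderiv (Sum.inr ()) (X (Sum.inr ()) ^ d + C c * X (Sum.inl 0) ^ d +
        X (Sum.inl 1) * Q)) = _
      have e1 : pderiv (Sum.inr ()) (X (Sum.inr ()) ^ d + C c * X (Sum.inl 0) ^ d +
          X (Sum.inl 1) * Q : MvPolynomial (Fin 2 ⊕ Unit) ℂ) =
          pderiv (Sum.inr ()) (X (Sum.inr ()) ^ d) +
          pderiv (Sum.inr ()) (C c * X (Sum.inl 0) ^ d) +
          pderiv (Sum.inr ()) (X (Sum.inl 1) * Q) := by rw [map_add, map_add]
      rw [e1, pderiv_C_mul, Derivation.leibniz_pow, Derivation.leibniz_pow,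
        Derivation.leibniz, pderiv_X_self, pderiv_X_of_ne (by simp), pderiv_X_of_ne (by simp)]
      simp [hw1]
    rw [h1, h3, mul_eq_zero]
    constructor
    · rintro (h | h)
      · exact absurd h h2
      · exact (pow_eq_zero_iff (by omega)).1 ((mul_eq_zero.1 h).resolve_left hd0)
    · intro h
      right
      rw [h, zero_pow (by omega), mul_zero]
  have hvr : v (Sum.inr ()) = 0 := (hdet v ⟨t, ht, hvt⟩).1 hj
  let u : ℂ → Fin 2 ⊕ Unit → ℂ := fun y => Sum.elim ![1, 0] fun _ => y
  have hfu : ∀ y, pt f (u y) = u (y ^ d + c) := by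
    intro y
    funext i
    rcases i with i | i
    · have h1 := congrFun (fibered_base1 (baseMap d A B) (fibreMap d c Q) (u y)) i
      change pt f (u y) (Sum.inl i) = _ at h1
      rw [h1]
      exact congrFun hfix i
    · change eval (u y) (X (Sum.inr ()) ^ d + C c * X (Sum.inl 0) ^ d + X (Sum.inl 1) * Q) =
        y ^ d + c
      simp [u]
  have hvu : v = t • u 0 := by
    funext i
    rcases i with i | i
    · exact congrFun hvt i
    · change v (Sum.inr ()) = t * 0
      rw [hvr, mul_zero]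
  have h1 : pt f (u 0) = u c := by rw [hfu, zero_pow hd1, zero_add]
  have h2 : pt f (u c) = u (ζ * c) := by rw [hfu, hcd]
  have h3 : pt f (u (ζ * c)) = u (ζ * c) := by rw [hfu, mul_pow, hζ, one_mul, hcd]
  have h4 : ∀ l, (pt f)^[l + 2] (u 0) = u (ζ * c) := by
    intro l
    induction l with
    | zero =>
      change pt f (pt f (u 0)) = _
      rw [h1, h2]
    | succ l ih =>
      have e : l + 1 + 2 = (l + 2) + 1 := by ring
      rw [e, Function.iterate_succ_apply', ih, h3]
  have h5 : ∀ l, (pt f)^[l + 2] v = t ^ d ^ (l + 2) • u (ζ * c) := by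
    intro l
    rw [hvu, pt_smul' f hendo.1, h4]
  refine ⟨2, 3, by norm_num, ⟨t ^ d ^ 2 * (t ^ d ^ 3)⁻¹,
    mul_ne_zero (pow_ne_zero _ ht) (inv_ne_zero (pow_ne_zero _ ht)), ?_⟩, fun l hl hmem => ?_⟩
  · change (pt f)^[0 + 2] v = _ • (pt f)^[1 + 2] v
    rw [h5, h5, smul_smul, mul_assoc]
    norm_num
    rw [inv_mul_cancel₀ (pow_ne_zero _ ht), mul_one]
  · obtain ⟨l', rfl⟩ := Nat.exists_eq_add_of_le' hl
    have h6 : (jac f ((pt f)^[l' + 2] v)).det = 0 := hmem
    rw [h5] at h6
    have h7 := (hdet _ ⟨t ^ d ^ (l' + 2), pow_ne_zero _ ht, rfl⟩).1 h6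
    change t ^ d ^ (l' + 2) * (ζ * c) = 0 at h7
    exact mul_ne_zero (pow_ne_zero _ ht) (mul_ne_zero hζ0 hc0) h7

/-- **Dynamical Mordell-Lang for endomorphisms which preserve a pencil of lines of the plane and are
strictly critically finite on the lines over one cycle of the pencil.** -/
theorem result :
    (∀ d : ℕ, 2 ≤ d → ∀ F : Fin 2 → MvPolynomial (Fin 2) ℂ, IsEndo d F →
      (∀ i κ, IsAlgebraic ℚ ((F i).coeff κ)) →
      ∀ z : Fin 2 → ℂ, (∀ i, IsAlgebraic ℚ (z i)) → NoncriticalPeriodic F z →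
        ∀ R : Unit → MvPolynomial (Fin 2 ⊕ Unit) ℂ, IsEndo d (fibered F R) → FibreSCF F R z →
          DML (fibered F R)) ∧
    (∀ d : ℕ, 2 ≤ d → ∀ A B : MvPolynomial (Fin 2) ℂ, IsEndo d (baseMap d A B) →
      (∀ κ, IsAlgebraic ℚ (A.coeff κ)) → (∀ κ, IsAlgebraic ℚ (B.coeff κ)) →
      eval ![1, 0] B ≠ 0 → ∀ ζ c : ℂ, ζ ^ d = 1 → ζ ≠ 1 → c ^ (d - 1) = ζ - 1 →
      ∀ Q : MvPolynomial (Fin 2 ⊕ Unit) ℂ, Q.IsHomogeneous (d - 1) →
        IsEndo d (fibered (baseMap d A B) (fibreMap d c Q)) ∧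
          DML (fibered (baseMap d A B) (fibreMap d c Q))) ∧
    (∀ d : ℕ, 2 ≤ d → ∀ F : Fin 2 → MvPolynomial (Fin 2) ℂ, IsEndo d F →
      (∀ i κ, IsAlgebraic ℚ ((F i).coeff κ)) →
      ∀ z : Fin 2 → ℂ, (∀ i, IsAlgebraic ℚ (z i)) → NoncriticalPeriodic F z →
        ∀ (κ : Type) [Fintype κ] [DecidableEq κ] (R : κ → MvPolynomial (Fin 2 ⊕ κ) ℂ),
          IsEndo d (fibered F R) → FibreChain F R z →
          ∀ (S : Set (MvPolynomial (Fin 2 ⊕ κ) ℂ)) (a : Fin 2 ⊕ κ → ℂ), base a ≠ 0 →
            (∀ n m : ℕ, n ≠ m →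
              ¬ SamePoint ((coneMap F)^[n] (base a)) ((coneMap F)^[m] (base a))) →
            FiniteUnionAP (returnSet (fibered F R) S a)) :=
  ⟨fun _ hd F hF halg z hz hz1 R hR hz2 => plane hd F hF halg R hR z hz hz1 hz2,
    fun _ hd A B hF hA hB hB1 ζ c hζ hζ1 hc Q hQ =>
      example_dml hd A B hF hA hB hB1 ζ c hζ hζ1 hc Q hQ,
    fun _ hd F hF halg z hz hz1 κ _ _ R hR hz2 S a ha hpre =>
      higher hd F hF halg κ R hR z hz hz1 hz2 S a ha hpre⟩

end Pool.Agent.Results.MP_b15c9e_ag.CriticallyFiniteFibre
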