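import Pool.Agent.L5helper26.JN.R

/-!
# MP_b15c9e_ag: Dynamical Mordell-Lang for joins of an arbitrary rational function with an arbitrary
endomorphism of projective space, closed sets of every dimension

Let `F = (F_0, F_1)` be an arbitrary pair of binary forms of degree `d ≥ 2` with algebraic coefficients
and without common zero, that is, an arbitrary rational function of degree `d` over the algebraic
numbers, let `Ψ` be an arbitrary endomorphism of `ℙ^(m-1)` of degree `d` over the algebraic numbers, and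

  `Φ : (x, y) ↦ (F(x), Ψ(y))`, an endomorphism of `ℙ^(m+1)`.

There is no condition on the critical points of `F` and of `Ψ`. Let `L` be the line `y = 0`. An
exceptional point of `F` is a point whose only preimage under `F²` is the point itself (so it is totally
invariant under `F²`; there are at most two, none for a general `F`, the point at infinity for a general
polynomial).

**Theorem.** Let `V` be a closed subset of `ℙ^(m+1)`, of any dimension, over the complex numbers, which
does not contain the line `L` and does not contain the (at most two) exceptional points of `F` on `L`.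
For example this holds for every `V` which does not contain `L` if `F` has no exceptional point. Let
`α = (x, y)` be a point with algebraic coordinates such that the orbit of `x` under `F` is infinite.
The set of the `n` with `Φ^n(α) ∈ V` is finite (so the conclusion of the Dynamical Mordell-Lang
conjecture holds for `V`, `Φ`, `α`)

(A) if the orbit of `α` is not bounded away from `L` with respect to some absolute value of the field of
complex numbers;

(B) if `h(α) > h(y) + C`, in particular if `h(x) > h(y) + C`, where the coordinates of `α` are in a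
number field `E`, and `C` depends only on `Φ` and `E`;

(C) for all but finitely many points `α` over `E` (with `x` of infinite orbit) of every plane through `L`
which is defined over `E`.

(D) Let `m = 2`, so that `Ψ = G` is a second arbitrary rational function, and let `V` contain neither of
the lines `y = 0` and `x = 0` and none of the exceptional points of `F` and `G` on them. On each line
which joins a point `(x, 0)` to a point `(0, y)` of these lines, `x` and `y` algebraic and of infinite
orbits, the same conclusion holds for **all** algebraic points `(x, t y)`, `t ≠ 0`, except for `t` in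
one coset of the group of the roots of unity. The exceptional `t` do not depend on `V`.

(E) Let `F_1, ..., F_r` be **arbitrary** rational functions of degree `d` over the algebraic numbers, and
let `Φ : (x_1, ..., x_r) ↦ (F_1(x_1), ..., F_r(x_r))`, an endomorphism of `ℙ^(2r-1)`. **100% of the integral points
of `ℙ^(2r-1)` have finite return sets for all the closed `V`** which contain none of the `r` lines
`x_j = 0 (j ≠ i)` and none of the exceptional points of the `F_i` on them. More precisely there are `C` and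
`δ > 0` so that for all `B ≥ 1` the number of the `a ∈ ℤ^(2r)` with `|a_p| ≤ B` for which the return set to
some such `V` is infinite is at most `C B^(2r - δ)`. For two functions this is even true over each point
of the first line: for **all** algebraic `x` of infinite orbit, the number of the `y ∈ ℤ²` with `|y_i| ≤ B` for
which `(x, y)` is such an exception is at most `C B^(2 - δ)`, where `C` and `δ` do not depend on `x`.

The proof. If the orbit of `α` is not bounded away from `L` at a place `v` then `‖y_n‖_v / ‖x_n‖_v` is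
smaller than `exp(-c d^n)`, as `L` is a superattracting line. If such a point lies on `V`, then for a
form `g` which vanishes on `V` the value `g(x_n, 0)` is smaller than `exp(-c d^n) ‖x_n‖^deg(g)`, so `x_n` is
very close to a zero `t` of `g(x, 0)`. If `t` is not exceptional then this contradicts, for large `n`, the
theorem of Silverman on the approximation of `t` by the points of an orbit of a rational function (a
consequence of the theorem of Roth for number fields), and if `t` is exceptional one uses another form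
`g`. If the orbit is bounded away from `L` at all places, then `h(α) ≤ h(y) + C`. If in (D) the orbits of
two points `(x, s y)`, `(x, t y)` are bounded away from both lines at all places, then `|s| = |t|` at all
places, so that `t / s` is a root of unity. For (E) let the orbits of the `x_i` be infinite. If for the
usual absolute value one of the `|F_i^n(x_i)|` dominates all the others then (A) applies. Otherwise
two of them are comparable, uniformly in `n`. Let `x = x_i` be fixed and let `T` be the set of the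
`y = x_j`, `|y_l| ≤ B`, for which they are. For `y, y'` in `T` the norms of `F_j^n(y)` and `F_j^n(y')` are comparable. If
`y` is a multiple `ρ y'`, `ρ ≥ ρ_0 > 1`, up to a bounded error, then `|F_j^n(y)|` is at least
`½ ρ^(d^n) |F_j^n(y')|` for a suitable `n`, as soon as `|y'|` is large. So the roundings of the vectors
`(1 + k/K) y`, `0 ≤ k < K`, `y` in `T`, `|y| ≥ O(K^τ)`, are pairwise different, and `T` has at most
`O(B² / K) + O(K^(2τ))` elements; take for `K` a small power of `B`. The vectors with finite orbit are on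
finitely many lines (Northcott).
-/

set_option autoImplicit false

open MvPolynomial

namespace Pool.Agent.Results.MP_b15c9e_ag.JoinsWithArbitraryMaps

/-- The self-map of the affine cone given by polynomials. -/
noncomputable def coneMap {ι : Type} (f : ι → MvPolynomial ι ℂ) (x : ι → ℂ) : ι → ℂ :=
  fun i => eval x (f i)

/-- The polynomials `f i` are forms of degree `d` without common zero, so they define an endomorphism
of projective space. -/
def IsEndo {ι : Type} (d : ℕ) (f : ι → MvPolynomial ι ℂ) : Prop :=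
  (∀ i, (f i).IsHomogeneous d) ∧ ∀ x : ι → ℂ, (∀ i, eval x (f i) = 0) → x = 0

/-- The coefficients are algebraic numbers. -/
def AlgebraicCoefficients {ι : Type} (f : ι → MvPolynomial ι ℂ) : Prop :=
  ∀ i κ, IsAlgebraic ℚ ((f i).coeff κ)

/-- The return set of the point `[a]` to the closed set of the common zeros of the members of `S`. -/
def returnSet {ι : Type} (f : ι → MvPolynomial ι ℂ) (S : Set (MvPolynomial ι ℂ))
    (a : ι → ℂ) : Set ℕ :=
  {n | ∀ g ∈ S, eval ((coneMap f)^[n] a) g = 0}

/-- The join `(x, y) ↦ (f(x), g(y))`. -/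
noncomputable def join {ι κ : Type} (f : ι → MvPolynomial ι ℂ) (g : κ → MvPolynomial κ ℂ) :
    ι ⊕ κ → MvPolynomial (ι ⊕ κ) ℂ :=
  Sum.elim (fun i => rename Sum.inl (f i)) fun i => rename Sum.inr (g i)

/-- The vectors differ by a nonzero factor, so they define the same point of projective space. -/
def SamePoint {ι : Type} (x y : ι → ℂ) : Prop := ∃ c : ℂ, c ≠ 0 ∧ x = c • y

/-- The points `[F^n(x)]` are pairwise different. -/
def InfiniteOrbit (F : Fin 2 → MvPolynomial (Fin 2) ℂ) (x : Fin 2 → ℂ) : Prop :=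
  ∀ n m : ℕ, n ≠ m → ¬ SamePoint ((coneMap F)^[n] x) ((coneMap F)^[m] x)

/-- The only preimage of the point `[e]` under the second iterate is `[e]` itself. -/
def Exceptional (F : Fin 2 → MvPolynomial (Fin 2) ℂ) (e : Fin 2 → ℂ) : Prop :=
  e ≠ 0 ∧ ∀ w : Fin 2 → ℂ, w ≠ 0 → SamePoint ((coneMap F)^[2] w) e → SamePoint w e

/-- The closed set given by `S` contains neither the line `y = 0` nor a point `(e, 0)` with `e`
exceptional. -/
def AvoidsFirst {m : ℕ} (F : Fin 2 → MvPolynomial (Fin 2) ℂ)
    (S : Set (MvPolynomial (Fin 2 ⊕ Fin m) ℂ)) : Prop :=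
  (∃ p : Fin 2 → ℂ, ∃ g ∈ S, eval (Sum.elim p 0) g ≠ 0) ∧
    ∀ e : Fin 2 → ℂ, Exceptional F e → ∃ g ∈ S, eval (Sum.elim e 0) g ≠ 0

/-- The closed set given by `S` contains neither the line `x = 0` nor a point `(0, e)` with `e`
exceptional. -/
def AvoidsSecond (G : Fin 2 → MvPolynomial (Fin 2) ℂ)
    (S : Set (MvPolynomial (Fin 2 ⊕ Fin 2) ℂ)) : Prop :=
  (∃ p : Fin 2 → ℂ, ∃ g ∈ S, eval (Sum.elim 0 p) g ≠ 0) ∧
    ∀ e : Fin 2 → ℂ, Exceptional G e → ∃ g ∈ S, eval (Sum.elim 0 e) g ≠ 0

/-- The return sets of `[a]` under the join of `F` and `Ψ` are finite, for all closed sets which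
contain neither the line `y = 0` nor an exceptional point of `F` on it. -/
def FiniteReturns {m : ℕ} (F : Fin 2 → MvPolynomial (Fin 2) ℂ) (Ψ : Fin m → MvPolynomial (Fin m) ℂ)
    (a : Fin 2 ⊕ Fin m → ℂ) : Prop :=
  ∀ S : Set (MvPolynomial (Fin 2 ⊕ Fin m) ℂ), (∀ g ∈ S, ∃ e : ℕ, g.IsHomogeneous e) →
    AvoidsFirst F S → (returnSet (join F Ψ) S a).Finite

/-- The return sets of `[a]` under the join of `F` and `G` are finite, for all closed sets which
contain neither the line `y = 0` nor an exceptional point of `F` on it, and neither the line `x = 0` nor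
an exceptional point of `G` on it. -/
def Good (F G : Fin 2 → MvPolynomial (Fin 2) ℂ) (a : Fin 2 ⊕ Fin 2 → ℂ) : Prop :=
  ∀ S : Set (MvPolynomial (Fin 2 ⊕ Fin 2) ℂ), (∀ g ∈ S, ∃ e : ℕ, g.IsHomogeneous e) →
    AvoidsFirst F S → AvoidsSecond G S → (returnSet (join F G) S a).Finite

/-- The join `(x_1, ..., x_r) ↦ (F_1(x_1), ..., F_r(x_r))`. -/
noncomputable def joinAll {r : ℕ} (F : Fin r → Fin 2 → MvPolynomial (Fin 2) ℂ) :
    Fin r × Fin 2 → MvPolynomial (Fin r × Fin 2) ℂ :=
  fun p => rename (fun l => (p.1, l)) (F p.1 p.2)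

/-- The vector `(0, ..., p, ..., 0)`, a point of the line with the number `i`. -/
def onLine {r : ℕ} (i : Fin r) (p : Fin 2 → ℂ) : Fin r × Fin 2 → ℂ :=
  fun q => if q.1 = i then p q.2 else 0

/-- The closed set given by `S` contains none of the `r` lines and none of the points `(0, ..., e, ..., 0)`
with `e` exceptional for the function at this place. -/
def AvoidsAll {r : ℕ} (F : Fin r → Fin 2 → MvPolynomial (Fin 2) ℂ)
    (S : Set (MvPolynomial (Fin r × Fin 2) ℂ)) : Prop :=
  ∀ i, (∃ p : Fin 2 → ℂ, ∃ g ∈ S, eval (onLine i p) g ≠ 0) ∧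
    ∀ e : Fin 2 → ℂ, Exceptional (F i) e → ∃ g ∈ S, eval (onLine i e) g ≠ 0

/-- The return sets of `[a]` under the join of the `F i` are finite, for all closed sets which
contain none of the lines and none of the exceptional points on them. -/
def GoodAll {r : ℕ} (F : Fin r → Fin 2 → MvPolynomial (Fin 2) ℂ) (a : Fin r × Fin 2 → ℂ) : Prop :=
  ∀ S : Set (MvPolynomial (Fin r × Fin 2) ℂ), (∀ g ∈ S, ∃ e : ℕ, g.IsHomogeneous e) →
    AvoidsAll F S → (returnSet (joinAll F) S a).Finite

/-- The absolute value is nonarchimedean, or it is the usual one composed with a ring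
endomorphism of the field of complex numbers. -/
def Standard (f : AbsoluteValue ℂ ℝ) : Prop :=
  IsNonarchimedean f ∨ ∃ σ : ℂ →+* ℂ, ∀ z, f z = ‖σ z‖

/-- The orbit of `(x, y)` is not bounded away from the line `y = 0`: for each `B` there are a point of
the orbit and `i` with `B |y_l| < |x_i|` for all `l`. -/
def NotBoundedAway {m : ℕ} (f : AbsoluteValue ℂ ℝ)
    (Φ : Fin 2 ⊕ Fin m → MvPolynomial (Fin 2 ⊕ Fin m) ℂ) (a : Fin 2 ⊕ Fin m → ℂ) : Prop :=
  ∀ B : ℝ, ∃ (n : ℕ) (i : Fin 2), ∀ l : Fin m,
    B * f ((coneMap Φ)^[n] a (Sum.inr l)) < f ((coneMap Φ)^[n] a (Sum.inl i))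

section

open Pool.Agent.L5helper26.RO Pool.Agent.L5helper26.JN

variable {d : ℕ} {F : Fin 2 → MvPolynomial (Fin 2) ℂ}

theorem exc_iff (hd : 2 ≤ d) (hF : IsEndo d F) {e : Fin 2 → ℂ} (he : e ≠ 0) (hn : ¬ NE F e) :
    Exceptional F e := by
  refine ⟨he, fun w hw h => ?_⟩
  obtain ⟨c, hc, hc'⟩ := h
  have h2 : sp F (sp F w) = c • e := hc'
  have h3 : cr e w = 0 := by
    by_contra h4
    refine hn ⟨w, hw, ?_, h4⟩
    rw [h2, cr_smul_right, cr_self, mul_zero]
  obtain ⟨a, ha, ha'⟩ := par_of_cr he hw h3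
  exact ⟨a, ha, ha'⟩

theorem av1_of (hd : 2 ≤ d) (hF : IsEndo d F) {m : ℕ}
    {S : Set (MvPolynomial (Fin 2 ⊕ Fin m) ℂ)} (h : AvoidsFirst F S) : Av1 F S := by
  obtain ⟨⟨p, g, hg, hp⟩, h2⟩ := h
  exact ⟨⟨g, hg, p, hp⟩, fun e he hn => h2 e (exc_iff hd hF he hn)⟩

theorem av2_of (hd : 2 ≤ d) (hF : IsEndo d F) {S : Set (MvPolynomial (Fin 2 ⊕ Fin 2) ℂ)}
    (h : AvoidsSecond F S) : Av2 F S := by
  obtain ⟨⟨p, g, hg, hp⟩, h2⟩ := h
  exact ⟨⟨g, hg, p, hp⟩, fun e he hn => h2 e (exc_iff hd hF he hn)⟩

theorem returns_of (hd : 2 ≤ d) (hF : IsEndo d F) {m : ℕ} {Ψ : Fin m → MvPolynomial (Fin m) ℂ}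
    {a : Fin 2 ⊕ Fin m → ℂ} (h : R1 F (jo F Ψ) a) : FiniteReturns F Ψ a :=
  fun S hS hav => h S hS (av1_of hd hF hav)

theorem good_of (hd : 2 ≤ d) (hF : IsEndo d F) {G : Fin 2 → MvPolynomial (Fin 2) ℂ}
    (hG : IsEndo d G) {a : Fin 2 ⊕ Fin 2 → ℂ} (h : R2 F G (jo F G) a) : Good F G a :=
  fun S hS h1 h2 => h S hS (av1_of hd hF h1) (av2_of hd hG h2)

theorem goodAll_of (hd : 2 ≤ d) {r : ℕ} {F : Fin r → Fin 2 → MvPolynomial (Fin 2) ℂ}
    (hF : ∀ i, IsEndo d (F i)) {a : Fin r × Fin 2 → ℂ} (h : RA F a) : GoodAll F a := by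
  intro S hS hav
  refine h S hS fun i => ⟨?_, fun e he hn => (hav i).2 e (exc_iff hd (hF i) he hn)⟩
  obtain ⟨p, g, hg, hp⟩ := (hav i).1
  exact ⟨g, hg, p, hp⟩

end

/-- **Dynamical Mordell-Lang for joins of an arbitrary rational function with an arbitrary
endomorphism.** -/
theorem result :
    ∀ d : ℕ, 2 ≤ d →
      (∀ F : Fin 2 → MvPolynomial (Fin 2) ℂ, IsEndo d F → AlgebraicCoefficients F →
        (∀ (m : ℕ) (Ψ : Fin m → MvPolynomial (Fin m) ℂ), IsEndo d Ψ → AlgebraicCoefficients Ψ →
          (∀ a : Fin 2 ⊕ Fin m → ℂ, (∀ i, IsAlgebraic ℚ (a i)) →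
            InfiniteOrbit F (fun i => a (Sum.inl i)) →
            ∀ f : AbsoluteValue ℂ ℝ, Standard f → NotBoundedAway f (join F Ψ) a →
              FiniteReturns F Ψ a) ∧
          (∀ (E : IntermediateField ℚ ℂ) (_ : NumberField E), (∀ i κ, (F i).coeff κ ∈ E) →
            (∀ i κ, (Ψ i).coeff κ ∈ E) →
              ∃ C : ℝ, ∀ (x : Fin 2 → E) (y : Fin m → E), InfiniteOrbit F (fun i => (x i : ℂ)) →
                Height.logHeight y + C < Height.logHeight (Sum.elim x y) →
                  FiniteReturns F Ψ (Sum.elim (fun i => (x i : ℂ)) fun i => (y i : ℂ))) ∧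
          (∀ (E : IntermediateField ℚ ℂ) (_ : NumberField E) (y : Fin m → ℂ), y ≠ 0 →
            (∀ i, y i ∈ E) →
              {x : Fin 2 → ℂ | (∀ i, x i ∈ E) ∧ InfiniteOrbit F x ∧
                ¬ FiniteReturns F Ψ (Sum.elim x y)}.Finite)) ∧
        (∀ G : Fin 2 → MvPolynomial (Fin 2) ℂ, IsEndo d G → AlgebraicCoefficients G →
          (∀ x y : Fin 2 → ℂ, (∀ i, IsAlgebraic ℚ (x i)) → (∀ i, IsAlgebraic ℚ (y i)) →
            InfiniteOrbit F x → InfiniteOrbit G y →
              ∃ s : ℂ, s ≠ 0 ∧ ∀ t : ℂ, t ≠ 0 → IsAlgebraic ℚ t →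
                (∀ w : ℕ, 0 < w → (t / s) ^ w ≠ 1) → Good F G (Sum.elim x (t • y))) ∧
          (∃ C δ : ℝ, 0 < δ ∧ ∀ B : ℕ, 1 ≤ B → ∀ x : Fin 2 → ℂ,
            (∀ i, IsAlgebraic ℚ (x i)) → InfiniteOrbit F x →
              ({y : Fin 2 → ℤ | (∀ i, |y i| ≤ B) ∧
                ¬ Good F G (Sum.elim x fun i => (y i : ℂ))}.ncard : ℝ) ≤
                C * (B : ℝ) ^ (2 - δ)))) ∧
      (∀ r : ℕ, 0 < r → ∀ H : Fin r → Fin 2 → MvPolynomial (Fin 2) ℂ,
        (∀ i, IsEndo d (H i)) → (∀ i, AlgebraicCoefficients (H i)) →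
          ∃ C δ : ℝ, 0 < δ ∧ ∀ B : ℕ, 1 ≤ B →
            ({a : Fin r × Fin 2 → ℤ | (∀ p, |a p| ≤ B) ∧
              ¬ GoodAll H (fun p => (a p : ℂ))}.ncard : ℝ) ≤
              C * (B : ℝ) ^ (2 * (r : ℝ) - δ)) := by
  intro d hd
  refine ⟨fun F hF hFa => ⟨fun m Ψ hΨ hΨa => ⟨fun a ha hinf f hf hub => ?_,
    fun E _ hFE hΨE => ?_, fun E _ y hy hyE => ?_⟩,
    fun G hG hGa => ⟨fun x y hxa hya hx hy => ?_, ?_⟩⟩, fun r hr H hH hHa => ?_⟩
  · exact returns_of hd hF (Pool.Agent.L5helper26.JN.unboundedJ2 F hF.1 hFa hF.2 Ψ hΨ.1 hΨa hd a ha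
      hinf f hf hub)
  · obtain ⟨C, hC⟩ := Pool.Agent.L5helper26.JN.heightJ2 F hF.1 hF.2 Ψ hΨ.1 hd E hFE hΨE
    exact ⟨C, fun x y hinf hlt => returns_of hd hF (hC x y hinf hlt)⟩
  · refine (Pool.Agent.L5helper26.JN.planeJ2 F hF.1 hFa hF.2 Ψ hΨ.1 hΨa hd E y hy hyE).subset ?_
    rintro x ⟨h1, h2, h3⟩
    exact ⟨h1, h2, fun h => h3 (returns_of hd hF h)⟩
  · obtain ⟨s, hs, h⟩ := Pool.Agent.L5helper26.JN.cosetJ2 hd F hF.1 hFa hF.2 G hG.1 hGa hG.2 x y
      hxa hya hx hy
    exact ⟨s, hs, fun t ht hta hw => good_of hd hF hG (h t ht hta hw)⟩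
  · obtain ⟨C, δ, hδ, hC⟩ := Pool.Agent.L5helper26.JN.densityC hd F hF.1 hFa hF.2 G hG.1 hGa hG.2
    exact ⟨C, δ, hδ, fun B hB x hxa hx => Pool.Agent.L5helper26.JN.ncard_of _ fun T hT hb =>
      hC B hB x hxa hx T hT fun y hy h => hb y hy (good_of hd hF hG h)⟩
  · obtain ⟨C, δ, hδ, hC⟩ := Pool.Agent.L5helper26.JN.densityB hr hd H
      (fun s => (hH s).1) hHa (fun s => (hH s).2)
    exact ⟨C, δ, hδ, fun B hB => Pool.Agent.L5helper26.JN.ncard_ofA _ fun T hT hb =>
      hC B hB T hT fun a ha h => hb a ha (goodAll_of hd hH h)⟩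

end Pool.Agent.Results.MP_b15c9e_ag.JoinsWithArbitraryMaps
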