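import Pool.Agent.L5helper26.DM.Line

/-!
# MP_b15c9e_ag: Dynamical Mordell-Lang for joins of an arbitrary rational function of one variable
with strictly critically finite maps and power maps

**Joins.** If `f` is an endomorphism of `ℙ(ℂ^ι)` and `g` is an endomorphism of `ℙ(ℂ^κ)`, both given by
forms of degree `d`, then the join `(x, y) ↦ (f(x), g(y))` is an endomorphism of `ℙ(ℂ^(ι ⊕ κ))`.

**Strict critical finiteness** (Ueda, Jonsson; `StrictlyCriticallyFinite`). An endomorphism `Ψ` of `ℙ^N`
with critical locus `C` is strictly critically finite if there are closed sets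
`ℙ^N = D_0, D_1, …, D_k = ∅` with `Ψ(D_i) ⊆ D_i` such that for all `i < k` some iterate of `Ψ` maps
`D_i ∩ C` into `D_{i+1}`. This is the case for the maps of Fornæss and Sibony
`y_i ↦ (y_0 - (1 - ζ) y_{i+1})^d`, `ζ^d = 1`, `ζ ≠ 1`, and trivially for `N = 0`, `Ψ = c y^d`.
`JoinOfSCF d κ Ψ`: the system `Ψ` is the join of one or more strictly critically finite systems of
degree `d` over `ℂ`; so it may contain any number of power maps `c y^d`.

**Theorem.** Let `F = (F_0, F_1)` be an arbitrary pair of binary forms of degree `d ≥ 2` with algebraic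
coefficients and without common zero, that is, an arbitrary rational function of degree `d` over the
algebraic numbers, and let `Ψ` be a join of strictly critically finite systems of degree `d`. Then the
endomorphism

  `(x_0, x_1, y) ↦ (F_0(x_0, x_1), F_1(x_0, x_1), Ψ(y))`

of projective space has the Dynamical Mordell-Lang property, for all complex points and all closed
sets. For example `(F_0(x_0, x_1), F_1(x_0, x_1), c_2 y_2^d, …, c_N y_N^d)` on `ℙ^N` for all `N ≥ 2`.

There is no condition on the critical points of `F`. Their orbits may be infinite, they may be periodic;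
so these endomorphisms are in general not critically finite, and for each `N ≥ 2` and `d ≥ 2` they form
families with at least `2 d - 2` moduli (the moduli of the rational functions of degree `d`).

The proof. Let `(x, y)` be a point. If `[x]` is preperiodic under `F` then `x` moves on finitely many
lines, on which a power map acts in suitable coordinates; a power map, and by the Nullstellensatz a
strictly critically finite map, is étale modulo almost all primes along all orbits of nonzero vectors,
so the whole orbit is a polynomial image of an orbit which is étale modulo a large prime, and `p`-adic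
interpolation applies. If `[x]` is not preperiodic, one needs a large prime `p` (more exactly, an
embedding of `ℂ` in the algebraic closure of `ℚ_p` for which finitely many given numbers are integral)
such that the orbit of `[x]` is étale modulo `p` from some time on. `F` has a fixed point `z` which is
not critical (otherwise the polynomial of the fixed points would divide the difference of its derivative
and the denominator). Its backward orbit `b_0 = z, b_1, b_2, …` is infinite. If `[x]` is algebraic, the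
orbit of `[x]` is an infinite subset of a number field, so by the finiteness of the solutions of the unit
equation it contains points which are near to one of the `b_k` at a large place, and modulo this place
the orbit becomes the fixed point `z`. If `[x]` is transcendental, one can map it near to `b_k`, and the
other given numbers to integral elements, except for finitely many `b_k`.
-/

set_option autoImplicit false

open MvPolynomial

namespace Pool.Agent.Results.MP_b15c9e_ag.JoinsWithRationalFunctions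

/-- The self-map of the affine cone given by polynomials. -/
noncomputable def coneMap {ι : Type} (f : ι → MvPolynomial ι ℂ) (x : ι → ℂ) : ι → ℂ :=
  fun i => eval x (f i)

/-- The polynomials `f i` are forms of degree `d` without common zero, so they define an endomorphism
of projective space. -/
def IsEndo {ι : Type} (d : ℕ) (f : ι → MvPolynomial ι ℂ) : Prop :=
  (∀ i, (f i).IsHomogeneous d) ∧ ∀ x : ι → ℂ, (∀ i, eval x (f i) = 0) → x = 0

/-- The return set of the point `[a]` to the closed set of the common zeros of the members of `S`. -/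
def returnSet {ι : Type} (f : ι → MvPolynomial ι ℂ) (S : Set (MvPolynomial ι ℂ))
    (a : ι → ℂ) : Set ℕ :=
  {n | ∀ g ∈ S, eval ((coneMap f)^[n] a) g = 0}

/-- A finite union of arithmetic progressions `{a + k n}`, where `k = 0` is allowed. -/
def FiniteUnionAP (A : Set ℕ) : Prop :=
  ∃ T : Finset (ℕ × ℕ), A = {n : ℕ | ∃ q ∈ T, ∃ m : ℕ, n = q.1 * m + q.2}

/-- The Dynamical Mordell-Lang property, for all closed sets and all points of projective space. -/
def DML {ι : Type} (f : ι → MvPolynomial ι ℂ) : Prop :=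
  ∀ S : Set (MvPolynomial ι ℂ), (∀ g ∈ S, ∃ e : ℕ, g.IsHomogeneous e) →
    ∀ a : ι → ℂ, a ≠ 0 → FiniteUnionAP (returnSet f S a)

/-- The closed subset of projective space given by a set of forms (as a set of nonzero vectors). -/
def zeroSet {N : ℕ} (S : Set (MvPolynomial (Fin (N + 1)) ℂ)) : Set (Fin (N + 1) → ℂ) :=
  {x | x ≠ 0 ∧ ∀ g ∈ S, eval x g = 0}

/-- The critical locus: the zeros of the Jacobian determinant. -/
def critical {N : ℕ} (f : Fin (N + 1) → MvPolynomial (Fin (N + 1)) ℂ) : Set (Fin (N + 1) → ℂ) :=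
  {x | (Matrix.of fun i j => eval x (pderiv j (f i))).det = 0}

/-- `f` is strictly critically finite. -/
def StrictlyCriticallyFinite {N : ℕ} (f : Fin (N + 1) → MvPolynomial (Fin (N + 1)) ℂ) : Prop :=
  ∃ (k : ℕ) (D : ℕ → Set (MvPolynomial (Fin (N + 1)) ℂ)),
    (∀ i, ∀ g ∈ D i, ∃ e : ℕ, g.IsHomogeneous e) ∧
    zeroSet (D 0) = {x | x ≠ 0} ∧ zeroSet (D k) = ∅ ∧
    (∀ i ≤ k, ∀ x ∈ zeroSet (D i), coneMap f x ∈ zeroSet (D i)) ∧
    ∀ i < k, ∃ m : ℕ, ∀ x ∈ zeroSet (D i), x ∈ critical f →
      (coneMap f)^[m] x ∈ zeroSet (D (i + 1))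

/-- The join `(x, y) ↦ (f(x), g(y))`. -/
noncomputable def join {ι κ : Type} (f : ι → MvPolynomial ι ℂ) (g : κ → MvPolynomial κ ℂ) :
    ι ⊕ κ → MvPolynomial (ι ⊕ κ) ℂ :=
  Sum.elim (fun i => rename Sum.inl (f i)) (fun j => rename Sum.inr (g j))

/-- The joins of one or more strictly critically finite systems of degree `d`. -/
inductive JoinOfSCF (d : ℕ) : (κ : Type) → (κ → MvPolynomial κ ℂ) → Prop
  | scf (N : ℕ) (f : Fin (N + 1) → MvPolynomial (Fin (N + 1)) ℂ) (h : IsEndo d f)
      (h' : StrictlyCriticallyFinite f) : JoinOfSCF d (Fin (N + 1)) f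
  | join (ι κ : Type) (f : ι → MvPolynomial ι ℂ) (g : κ → MvPolynomial κ ℂ)
      (hf : JoinOfSCF d ι f) (hg : JoinOfSCF d κ g) : JoinOfSCF d (ι ⊕ κ) (join f g)

/-- The forms `(y_0 - (1 - ζ) y_{i+1})^d`, `i = 0, …, N`, with `y_{N+1} = y_0`. -/
noncomputable def fsMap (N d : ℕ) (ζ : ℂ) : Fin (N + 1) → MvPolynomial (Fin (N + 1)) ℂ :=
  fun i => (X 0 - C (1 - ζ) * X (i + 1)) ^ d

theorem endo_join {ι κ : Type} {d : ℕ} {f : ι → MvPolynomial ι ℂ} {g : κ → MvPolynomial κ ℂ}
    (hf : IsEndo d f) (hg : IsEndo d g) : IsEndo d (join f g) := by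
  constructor
  · rintro (i | j)
    · exact (hf.1 i).rename_isHomogeneous
    · exact (hg.1 j).rename_isHomogeneous
  · intro x hx
    have h1 : (fun i => x (Sum.inl i)) = 0 := hf.2 _ fun i => by
      have h := hx (Sum.inl i)
      change eval x (rename Sum.inl (f i)) = 0 at h
      rw [eval_rename] at h
      exact h
    have h2 : (fun i => x (Sum.inr i)) = 0 := hg.2 _ fun i => by
      have h := hx (Sum.inr i)
      change eval x (rename Sum.inr (g i)) = 0 at h
      rw [eval_rename] at h
      exact h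
    funext i
    rcases i with i | i
    · exact congrFun h1 i
    · exact congrFun h2 i

theorem tame_of {d : ℕ} (hd : 1 ≤ d) {κ : Type} {Ψ : κ → MvPolynomial κ ℂ}
    (h : JoinOfSCF d κ Ψ) : IsEndo d Ψ ∧ ∃ (_ : Fintype κ) (_ : DecidableEq κ),
      ∀ y : κ → ℂ, Pool.Agent.L5helper26.DM.Tame Ψ y := by
  induction h with
  | scf N f hf hs =>
    refine ⟨hf, inferInstance, inferInstance, fun y => ?_⟩
    by_cases hy : y = 0
    · exact Pool.Agent.L5helper26.DM.tame_zero f hd hf.1 y 0 hy
    obtain ⟨k, D, -, hD0, hDk, hinv, hcrit⟩ := hs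
    refine Pool.Agent.L5helper26.DM.tame_scf hd f hf.1 hf.2 k D ?_ (fun z hz => ?_) y hy
    · refine ⟨fun i hi z hz hzi => (hinv i hi z ⟨hz, hzi⟩).2, fun i hi => ?_, fun z hz => ?_⟩
      · obtain ⟨m, hm⟩ := hcrit i hi
        exact ⟨m, fun z hz hzi hj => (hm z ⟨hz, hzi⟩ hj).2⟩
      · by_contra hno
        push Not at hno
        have : z ∈ zeroSet (D k) := ⟨hz, hno⟩
        rw [hDk] at this
        exact this
    · have : z ∈ zeroSet (D 0) := by
        rw [hD0]
        exact hz
      exact this.2
  | join ι κ f g hf hg ihf ihg =>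
    obtain ⟨e1, i1, j1, h1⟩ := ihf
    obtain ⟨e2, i2, j2, h2⟩ := ihg
    refine ⟨endo_join e1 e2, inferInstance, inferInstance, fun y => ?_⟩
    have h3 := (h1 fun i => y (Sum.inl i)).blk (h2 fun i => y (Sum.inr i))
    have h4 : (Sum.elim (fun i => y (Sum.inl i)) fun i => y (Sum.inr i)) = y := by
      funext i
      rcases i with i | i <;> rfl
    rw [h4] at h3
    exact h3

theorem power_scf {d : ℕ} (hd : 1 ≤ d) (c : ℂ) (hc : c ≠ 0) :
    JoinOfSCF d (Fin 1) fun _ => C c * X 0 ^ d := by
  have hne : ∀ x : Fin 1 → ℂ, x ≠ 0 → x 0 ≠ 0 := by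
    intro x hx h
    apply hx
    funext i
    fin_cases i
    exact h
  refine JoinOfSCF.scf 0 _ ⟨fun i => ?_, fun x hx => ?_⟩ ?_
  · have := (isHomogeneous_C (Fin 1) c).mul ((isHomogeneous_X ℂ (0 : Fin 1)).pow d)
    rwa [zero_add, one_mul] at this
  · by_contra hx0
    have h1 := hx 0
    rw [map_mul, map_pow, eval_C, eval_X] at h1
    exact mul_ne_zero hc (pow_ne_zero _ (hne x hx0)) h1
  · refine ⟨1, fun i => if i = 0 then ∅ else {1}, fun i g hg => ?_, ?_, ?_, ?_, ?_⟩
    · by_cases hi : i = 0
      · beta_reduce at hg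
        rw [if_pos hi] at hg
        exact hg.elim
      · beta_reduce at hg
        rw [if_neg hi, Set.mem_singleton_iff] at hg
        rw [hg]
        exact ⟨0, isHomogeneous_one _ _⟩
    · ext x
      simp [zeroSet]
    · ext x
      simp [zeroSet]
    · intro i hi x hx
      have hx' : coneMap (fun _ => C c * X 0 ^ d : Fin 1 → MvPolynomial (Fin 1) ℂ) x ≠ 0 := by
        intro h
        have h1 := congrFun h 0
        change eval x (C c * X 0 ^ d) = 0 at h1
        rw [map_mul, map_pow, eval_C, eval_X] at h1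
        exact mul_ne_zero hc (pow_ne_zero _ (hne x hx.1)) h1
      rcases Nat.eq_zero_or_pos i with rfl | h
      · exact ⟨hx', fun g hg => by simp at hg⟩
      · have h1 := hx.2 1 (by simp [h.ne'])
        rw [map_one] at h1
        exact absurd h1 one_ne_zero
    · intro i hi
      refine ⟨0, fun x hx hcrit => ?_⟩
      exfalso
      have h1 : (Matrix.of fun i j : Fin 1 => eval x (pderiv j ((fun _ => C c * X 0 ^ d :
          Fin 1 → MvPolynomial (Fin 1) ℂ) i))).det = 0 := hcrit
      rw [Matrix.det_unique] at h1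
      have h2 : eval x (pderiv (0 : Fin 1) (C c * X 0 ^ d)) = 0 := h1
      rw [pderiv_C_mul, pderiv_pow, pderiv_X_self] at h2
      simp only [map_mul, eval_C, map_natCast, map_pow, eval_X, mul_one] at h2
      have h3 : (d : ℂ) ≠ 0 := Nat.cast_ne_zero.2 (by omega)
      have h4 := hne x hx.1
      simp_all

theorem fs_scf {N d : ℕ} {ζ : ℂ} (hd : 1 ≤ d) (hζ : ζ ^ d = 1) (hζ1 : ζ ≠ 1) :
    JoinOfSCF d (Fin (N + 1)) (fsMap N d ζ) := by
  have hd0 : d ≠ 0 := by omega
  have hζ0 : ζ ≠ 0 := by
    rintro rfl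
    rw [zero_pow hd0] at hζ
    exact zero_ne_one hζ
  have hendo : ∀ x : Fin (N + 1) → ℂ, (∀ i, eval x (fsMap N d ζ i) = 0) → x = 0 :=
    fun x hx => Pool.Agent.R847.PC.fs_ne hd0 hζ1 hζ0 x hx
  refine JoinOfSCF.scf N _ ⟨fun i => ?_, hendo⟩ ?_
  · have h1 : (X 0 - C (1 - ζ) * X (i + 1) : MvPolynomial (Fin (N + 1)) ℂ).IsHomogeneous 1 :=
      (isHomogeneous_X _ _).sub (by
        have := (isHomogeneous_C (Fin (N + 1)) (1 - ζ)).mul (isHomogeneous_X ℂ (i + 1))
        rwa [zero_add] at this)
    have h2 := h1.pow d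
    rwa [one_mul] at h2
  have hne : ∀ x : Fin (N + 1) → ℂ, x ≠ 0 → coneMap (fsMap N d ζ) x ≠ 0 := fun x hx h =>
    hx (hendo x fun i => congrFun h i)
  have hneit : ∀ (x : Fin (N + 1) → ℂ), x ≠ 0 → ∀ n, (coneMap (fsMap N d ζ))^[n] x ≠ 0 := by
    intro x hx n
    induction n with
    | zero => exact hx
    | succ n ih =>
      rw [Function.iterate_succ_apply']
      exact hne _ ih
  have hone : zeroSet (N := N) {1} = ∅ := by
    ext x
    constructor
    · rintro ⟨-, h⟩
      have := h 1 rfl
      rw [map_one] at this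
      exact one_ne_zero this
    · exact fun h => h.elim
  let D : ℕ → Set (MvPolynomial (Fin (N + 1)) ℂ) := fun i =>
    if i = N + 1 then {1} else Set.range (Pool.Agent.R847.PC.vdm (N := N) (N + 2 - i))
  have hDlt : ∀ i, i < N + 1 → ∀ x, x ∈ zeroSet (D i) ↔
      x ≠ 0 ∧ Pool.Agent.R847.PC.nd x < N + 2 - i := by
    intro i hi x
    simp only [D, if_neg (show i ≠ N + 1 by omega)]
    rw [← Pool.Agent.R847.PC.nd_lt_iff]
    constructor
    · rintro ⟨h1, h2⟩
      exact ⟨h1, fun φ => h2 _ ⟨φ, rfl⟩⟩
    · rintro ⟨h1, h2⟩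
      refine ⟨h1, ?_⟩
      rintro _ ⟨φ, rfl⟩
      exact h2 φ
  refine ⟨N + 1, D, ?_, ?_, ?_, ?_, ?_⟩
  · intro i g hg
    by_cases hi : i = N + 1
    · simp only [D, if_pos hi, Set.mem_singleton_iff] at hg
      rw [hg]
      exact ⟨0, isHomogeneous_one _ _⟩
    · simp only [D, if_neg hi] at hg
      obtain ⟨φ, rfl⟩ := hg
      exact Pool.Agent.R847.PC.vdm_homogeneous _ _
  · ext x
    rw [hDlt 0 (by omega)]
    have := Pool.Agent.R847.PC.nd_le x
    constructor
    · exact fun h => h.1
    · exact fun h => ⟨h, by omega⟩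
  · simp only [D, if_pos]
    exact hone
  · intro i hi x hx
    rcases Nat.lt_or_ge i (N + 1) with h | h
    · rw [hDlt i h] at hx ⊢
      exact ⟨hne x hx.1, lt_of_le_of_lt (Pool.Agent.R847.PC.nd_fs_le x) hx.2⟩
    · have hi' : i = N + 1 := by omega
      simp only [D, if_pos hi', hone] at hx
      exact hx.elim
  · intro i hi
    refine ⟨N + 2, fun x hx hxc => ?_⟩
    rw [hDlt i hi] at hx
    have h1 := Pool.Agent.R847.PC.fs_drop hd0 hζ hζ1 x hx.1 hxc
    change Pool.Agent.R847.PC.nd ((coneMap (fsMap N d ζ))^[N + 2] x) < _ at h1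
    have h2 := Pool.Agent.R847.PC.nd_pos ((coneMap (fsMap N d ζ))^[N + 2] x)
    rcases Nat.lt_or_ge (i + 1) (N + 1) with h | h
    · rw [hDlt (i + 1) h]
      exact ⟨hneit x hx.1 _, by omega⟩
    · exfalso
      omega

/-- **Dynamical Mordell-Lang for the joins of an arbitrary rational function of one variable over the
algebraic numbers with strictly critically finite maps and power maps.** -/
theorem result :
    (∀ d : ℕ, 2 ≤ d → ∀ F : Fin 2 → MvPolynomial (Fin 2) ℂ, IsEndo d F →
      (∀ i κ, IsAlgebraic ℚ ((F i).coeff κ)) →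
      ∀ (κ : Type) (Ψ : κ → MvPolynomial κ ℂ), JoinOfSCF d κ Ψ →
        IsEndo d (join F Ψ) ∧ DML (join F Ψ)) ∧
    (∀ d : ℕ, 1 ≤ d → (∀ c : ℂ, c ≠ 0 → JoinOfSCF d (Fin 1) fun _ => C c * X 0 ^ d) ∧
      ∀ (N : ℕ) (ζ : ℂ), ζ ^ d = 1 → ζ ≠ 1 → JoinOfSCF d (Fin (N + 1)) (fsMap N d ζ)) := by
  refine ⟨fun d hd F hF halg κ Ψ hΨ => ?_, fun d hd => ⟨fun c hc => power_scf hd c hc,
    fun N ζ h1 h2 => fs_scf hd h1 h2⟩⟩
  obtain ⟨hΨ1, hfin, hdec, htame⟩ := tame_of (by omega) hΨ
  refine ⟨endo_join hF hΨ1, fun S _ a _ => ?_⟩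
  have h1 := Pool.Agent.L5helper26.DM.half_tame_line F hF.1 halg hF.2 hd fun i => a (Sum.inl i)
  have h2 := (h1.blk (htame fun i => a (Sum.inr i))).dml S
  have h3 : (Sum.elim (fun i => a (Sum.inl i)) fun i => a (Sum.inr i)) = a := by
    funext i
    rcases i with i | i <;> rfl
  rw [h3] at h2
  exact h2

end Pool.Agent.Results.MP_b15c9e_ag.JoinsWithRationalFunctions
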