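import Pool.Agent.L5helper26.RO.Cx

/-!
# MP_b15c9e_ag: Dynamical Mordell-Lang for the endomorphisms of the plane which preserve a pencil of
lines: curves through the centre of the pencil, and almost all points

Let `F = (F_0, F_1)` be a pair of binary forms of degree `d ≥ 2` without common zero and let `R` be a
form of degree `d` in the variables `x_0, x_1, y` in which `y^d` occurs, so that

  `Φ : (x, y) ↦ (F(x), R(x, y))`

is an endomorphism of the projective plane (`fibered F R`). These are, up to a change of coordinates,
all endomorphisms of the plane which preserve a pencil of lines. The coefficients of `F` and `R` are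
algebraic numbers, and the rational function `F` has no exceptional point (no point is the only point of
its preimage under `F²`). (If `F` has an exceptional point then `Φ²` has a totally invariant line, it is
a polynomial endomorphism of the affine plane, and the theorem of Xie applies.) There is no other
condition on `Φ`.

**Theorem.** Let `α` be a point with algebraic coordinates.

(A) The return set of `α` to every closed set all of whose curves pass through the centre `(0 : 0 : 1)`
of the pencil is a finite union of arithmetic progressions.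

(B) If the orbit of `α` is not bounded away from the centre, with respect to some absolute value of the
field of complex numbers, then the return sets of `α` to all closed subsets of the plane are finite
unions of arithmetic progressions. For example this holds for all algebraic points in the basin of
attraction of the centre, which is a superattracting fixed point.

(C) For every number field `E` which contains the coefficients there is a constant `C` such that the
conclusion of (B) holds for all points `α` over `E` with `h(α) > h(π(α)) + C`, where `π` is the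
projection to the base of the pencil.

(D) For every number field `E`, on each line of the pencil over a point of `ℙ¹(E)` the conclusion of (B)
holds for all but finitely many of the points over `E`.

The proof uses Roth's theorem in place of the `p`-adic interpolation of orbits. If the orbit of `α` is not
bounded away from the centre at a place `v` of a number field then the quotient `|y_n|_v / ‖x_n‖_v`
grows like `exp(c d^n)`. If such a point lies on a curve `a(x) y^e + … = 0` then `a(x_n)` is smaller
than `exp(-c d^n) ‖x_n‖^deg(a)`, so `x_n` is close to a zero of `a`, which for large `n` contradicts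
Silverman's theorem on the orbits of rational functions (a consequence of the theorem of Roth for
number fields). If the orbit is bounded away from the centre at all places then the values of a suitable
form `G` at the points of the orbit on a curve through the centre are divisible by a high power of
`x_1 - b x_0`, and this bounds the height of `x_n`.
-/

set_option autoImplicit false

open MvPolynomial

namespace Pool.Agent.Results.MP_b15c9e_ag.PencilPreservingMaps

/-- The self-map of the affine cone given by polynomials. -/
noncomputable def coneMap {ι : Type} (f : ι → MvPolynomial ι ℂ) (x : ι → ℂ) : ι → ℂ :=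
  fun i => eval x (f i)

/-- The polynomials `f i` are forms of degree `d` without common zero, so they define an endomorphism
of projective space. -/
def IsEndo {ι : Type} (d : ℕ) (f : ι → MvPolynomial ι ℂ) : Prop :=
  (∀ i, (f i).IsHomogeneous d) ∧ ∀ x : ι → ℂ, (∀ i, eval x (f i) = 0) → x = 0

/-- The return set of the point `[a]` to the closed set of the common zeros of the members of `S`. -/
def returnSet {ι : Type} (f : ι → MvPolynomial ι ℂ) (S : Set (MvPolynomial ι ℂ))
    (a : ι → ℂ) : Set ℕ :=
  {n | ∀ g ∈ S, eval ((coneMap f)^[n] a) g = 0}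

/-- A finite union of arithmetic progressions `{a + k n}`, where `k = 0` is allowed. -/
def FiniteUnionAP (A : Set ℕ) : Prop :=
  ∃ T : Finset (ℕ × ℕ), A = {n : ℕ | ∃ q ∈ T, ∃ m : ℕ, n = q.1 * m + q.2}

/-- The conclusion of the Dynamical Mordell-Lang conjecture for the point `[a]` and all closed sets. -/
def DMLAt {ι : Type} (f : ι → MvPolynomial ι ℂ) (a : ι → ℂ) : Prop :=
  ∀ S : Set (MvPolynomial ι ℂ), (∀ g ∈ S, ∃ e : ℕ, g.IsHomogeneous e) →
    FiniteUnionAP (returnSet f S a)

/-- The vectors differ by a nonzero factor, so they define the same point of projective space. -/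
def SamePoint {ι : Type} (x y : ι → ℂ) : Prop := ∃ c : ℂ, c ≠ 0 ∧ x = c • y

/-- The system `(x, y) ↦ (F(x), R(x, y))`. -/
noncomputable def fibered (F : Fin 2 → MvPolynomial (Fin 2) ℂ)
    (R : MvPolynomial (Fin 2 ⊕ Unit) ℂ) : Fin 2 ⊕ Unit → MvPolynomial (Fin 2 ⊕ Unit) ℂ :=
  Sum.elim (fun i => rename Sum.inl (F i)) fun _ => R

/-- Every point `t` has a preimage `w` under the second iterate which is different from `t`. -/
def NoExceptionalPoint (F : Fin 2 → MvPolynomial (Fin 2) ℂ) : Prop :=
  ∀ t : Fin 2 → ℂ, t ≠ 0 → ∃ w : Fin 2 → ℂ, w ≠ 0 ∧ SamePoint ((coneMap F)^[2] w) t ∧ ¬ SamePoint w t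

/-- The centre `(0 : 0 : 1)` of the pencil. -/
def centre : Fin 2 ⊕ Unit → ℂ := Sum.elim 0 fun _ => 1

/-- Every irreducible common divisor of the members of `S` vanishes at the centre: all curves in the
closed set defined by `S` pass through the centre. -/
def CurvesThroughCentre (S : Set (MvPolynomial (Fin 2 ⊕ Unit) ℂ)) : Prop :=
  ∀ p : MvPolynomial (Fin 2 ⊕ Unit) ℂ, Irreducible p → (∀ g ∈ S, p ∣ g) → eval centre p = 0

/-- The absolute value is nonarchimedean, or it is the usual one composed with a ring
endomorphism of the field of complex numbers. -/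
def Standard (f : AbsoluteValue ℂ ℝ) : Prop :=
  IsNonarchimedean f ∨ ∃ σ : ℂ →+* ℂ, ∀ z, f z = ‖σ z‖

/-- The orbit of `(x_0 : x_1 : y)` is not bounded away from the centre: for each `B` there is a point
of the orbit with `B |x_i| < |y|` for `i = 0, 1`. -/
def NotBoundedAway (f : AbsoluteValue ℂ ℝ)
    (Φ : Fin 2 ⊕ Unit → MvPolynomial (Fin 2 ⊕ Unit) ℂ) (a : Fin 2 ⊕ Unit → ℂ) : Prop :=
  ∀ B : ℝ, ∃ n : ℕ, ∀ i : Fin 2,
    B * f ((coneMap Φ)^[n] a (Sum.inl i)) < f ((coneMap Φ)^[n] a (Sum.inr ()))

section

variable {d : ℕ} {F : Fin 2 → MvPolynomial (Fin 2) ℂ} {R : MvPolynomial (Fin 2 ⊕ Unit) ℂ}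

open Pool.Agent.L5helper26.DM Pool.Agent.L5helper26.PN in
theorem cen_ne (hd : 2 ≤ d) (hF : IsEndo d F) (hR : IsEndo d (fibered F R)) :
    eval cen R ≠ 0 := by
  intro h
  have h1 := hR.2 cen (by
    rintro (i | i)
    · change eval cen (rename Sum.inl (F i)) = 0
      rw [eval_rename]
      have h2 := congrFun (pt_zero F (by omega) hF.1) i
      exact h2
    · exact h)
  have h2 := congrFun h1 (Sum.inr ())
  change (1 : ℂ) = 0 at h2
  exact one_ne_zero h2

open Pool.Agent.L5helper26.RO in
theorem noExc (h : NoExceptionalPoint F) : NoExc F := by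
  intro t ht
  obtain ⟨w, hw, ⟨c, hc, hc'⟩, hne⟩ := h t ht
  refine ⟨w, hw, ?_, fun h1 => hne ?_⟩
  · have h2 : sp F (sp F w) = c • t := hc'
    rw [h2, cr_smul_right, cr_self, mul_zero]
  · exact par_of_cr ht hw h1

end

/-- **Dynamical Mordell-Lang for endomorphisms of the plane which preserve a pencil of lines.** -/
theorem result :
    ∀ d : ℕ, 2 ≤ d →
      ∀ F : Fin 2 → MvPolynomial (Fin 2) ℂ, IsEndo d F → (∀ i κ, IsAlgebraic ℚ ((F i).coeff κ)) →
        NoExceptionalPoint F →
      ∀ R : MvPolynomial (Fin 2 ⊕ Unit) ℂ, IsEndo d (fibered F R) →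
        (∀ κ, IsAlgebraic ℚ (R.coeff κ)) →
      (∀ a : Fin 2 ⊕ Unit → ℂ, (∀ i, IsAlgebraic ℚ (a i)) →
        ∀ S : Set (MvPolynomial (Fin 2 ⊕ Unit) ℂ), (∀ g ∈ S, ∃ e : ℕ, g.IsHomogeneous e) →
          CurvesThroughCentre S → FiniteUnionAP (returnSet (fibered F R) S a)) ∧
      (∀ a : Fin 2 ⊕ Unit → ℂ, (∀ i, IsAlgebraic ℚ (a i)) →
        ∀ f : AbsoluteValue ℂ ℝ, Standard f → NotBoundedAway f (fibered F R) a →
          DMLAt (fibered F R) a) ∧
      (∀ (E : IntermediateField ℚ ℂ) (_ : NumberField E), (∀ i κ, (F i).coeff κ ∈ E) →
        (∀ κ, R.coeff κ ∈ E) →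
          ∃ C : ℝ, ∀ a : Fin 2 ⊕ Unit → E, (fun i => a (Sum.inl i)) ≠ 0 →
            Height.logHeight (fun i => a (Sum.inl i)) + C < Height.logHeight a →
              DMLAt (fibered F R) fun i => (a i : ℂ)) ∧
      (∀ (E : IntermediateField ℚ ℂ) (_ : NumberField E) (x : Fin 2 → ℂ), x ≠ 0 →
        (∀ i, x i ∈ E) →
          {y : ℂ | y ∈ E ∧ ¬ DMLAt (fibered F R) (Sum.elim x fun _ => y)}.Finite) := by
  intro d hd F hF hFa hne R hR hRa
  have hc := cen_ne hd hF hR
  have hne' := noExc hne
  have hR1 : ∀ j : Unit, ((fun _ => R) j : MvPolynomial (Fin 2 ⊕ Unit) ℂ).IsHomogeneous d :=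
    fun j => hR.1 (Sum.inr j)
  refine ⟨fun a ha S hS hcen => ?_, fun a ha f hf hub S hS => ?_, fun E _ hFE hRE => ?_,
    fun E _ x hx hxE => ?_⟩
  · exact Pool.Agent.L5helper26.RO.curves F hF.1 hFa hF.2 (fun _ => R) hR1 hRa hc hne' hd a ha S hS
      hcen
  · exact Pool.Agent.L5helper26.RO.unbounded F hF.1 hFa hF.2 (fun _ => R) hR1 hRa hc hne' hd a ha f
      hf hub S hS
  · exact Pool.Agent.L5helper26.RO.large F hF.1 hF.2 (fun _ => R) hR1 hc hne' hd E hFE hRE
  · exact Pool.Agent.L5helper26.RO.almost_all F hF.1 hFa hF.2 (fun _ => R) hR1 hRa hc hne' hd E x hx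
      hxE

end Pool.Agent.Results.MP_b15c9e_ag.PencilPreservingMaps
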